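import Pool.Agent.Q72.AL.Stm4

/-! Project AL (helper72), job QQB: the mean of the weighted mean squares. -/

set_option autoImplicit false

open Complex MeasureTheory Filter Topology Set
open H345 (Zo aa XX)

namespace Pool.Agent.Q158.AL

open Pool.Agent.Q72.AL

theorem cs (Z : Finset ℝ) (T : ℝ) :
    ∑ t ∈ Z, ‖aa t‖ * Real.exp (-(2 * (t - T) ^ 2)) * (1 + (t - T) ^ 2) ≤
      Real.sqrt (N2 Z T) *
        Real.sqrt (∑ t ∈ Z, Real.exp (-(2 * (t - T) ^ 2)) * (1 + (t - T) ^ 2) ^ 2) := by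
  have h := Real.sum_mul_le_sqrt_mul_sqrt Z (fun t => ‖aa t‖ * Real.exp (-(t - T) ^ 2))
    (fun t => Real.exp (-(t - T) ^ 2) * (1 + (t - T) ^ 2))
  have key : ∀ t : ℝ, Real.exp (-(2 * (t - T) ^ 2)) =
      Real.exp (-(t - T) ^ 2) * Real.exp (-(t - T) ^ 2) := by
    intro t
    rw [← Real.exp_add]; congr 1; ring
  have e1 : ∑ t ∈ Z, ‖aa t‖ * Real.exp (-(2 * (t - T) ^ 2)) * (1 + (t - T) ^ 2) =
      ∑ t ∈ Z, (‖aa t‖ * Real.exp (-(t - T) ^ 2)) *
        (Real.exp (-(t - T) ^ 2) * (1 + (t - T) ^ 2)) := by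
    refine Finset.sum_congr rfl fun t _ => ?_
    rw [key]; ring
  have e2 : N2 Z T = ∑ t ∈ Z, (‖aa t‖ * Real.exp (-(t - T) ^ 2)) ^ 2 := by
    unfold N2
    refine Finset.sum_congr rfl fun t _ => ?_
    rw [key]; ring
  have e3 : ∑ t ∈ Z, Real.exp (-(2 * (t - T) ^ 2)) * (1 + (t - T) ^ 2) ^ 2 =
      ∑ t ∈ Z, (Real.exp (-(t - T) ^ 2) * (1 + (t - T) ^ 2)) ^ 2 := by
    refine Finset.sum_congr rfl fun t _ => ?_
    rw [key]; ring
  rw [e1, e2, e3]; exact h

theorem zz_le (Z : Finset ℝ) (v T : ℝ) : ‖ZZ Z 2 v T‖ ≤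
    ∑ t ∈ Z, ‖aa t‖ * Real.exp (-(2 * (t - T) ^ 2)) * (1 + (t - T) ^ 2) := by
  unfold ZZ
  refine (norm_sum_le _ _).trans (Finset.sum_le_sum fun t _ => ?_)
  rw [norm_mul, norm_mul, Complex.norm_exp_ofReal_mul_I, mul_one, Complex.norm_real,
    Real.norm_of_nonneg (Real.exp_pos _).le]
  have h1 : 0 ≤ ‖aa t‖ * Real.exp (-(2 * (t - T) ^ 2)) := by positivity
  have h2 : 0 ≤ (t - T) ^ 2 := sq_nonneg _
  nlinarith

theorem n2_nonneg (Z : Finset ℝ) (T : ℝ) : 0 ≤ N2 Z T := by
  unfold N2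
  positivity

theorem n2_cont (Z : Finset ℝ) : Continuous (fun T : ℝ => N2 Z T) := by
  unfold N2
  fun_prop

/-- the tail of the weight -/
theorem tail {h : ℝ} (hh : 0 < h) : ∫ x in (Icc (-h) h)ᶜ, (1 + x ^ 2)⁻¹ ≤ 2 / h := by
  have h1 := integral_add_compl (measurableSet_Icc (a := -h) (b := h)) (integrable_inv_one_add_sq)
  rw [integral_univ_inv_one_add_sq] at h1
  have h2 : ∫ x in Icc (-h) h, (1 + x ^ 2)⁻¹ = 2 * Real.arctan h := by
    rw [integral_Icc_eq_integral_Ioc, ← intervalIntegral.integral_of_le (by linarith), integral_inv_one_add_sq,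
      Real.arctan_neg]
    ring
  have h3 : Real.arctan h⁻¹ ≤ h⁻¹ := by
    have h4 := Real.le_tan (Real.arctan_nonneg.2 (inv_nonneg.2 hh.le)) (Real.arctan_lt_pi_div_two h⁻¹)
    rwa [Real.tan_arctan] at h4
  rw [Real.arctan_inv_of_pos hh] at h3
  rw [h2] at h1
  have h5 : 2 / h = 2 * h⁻¹ := by ring
  rw [h5]
  linarith

/-- the weight on an interval -/
theorem weight_le (a b : ℝ) : ∫ x in a..b, (1 + x ^ 2)⁻¹ ≤ Real.pi := by
  rw [integral_inv_one_add_sq]
  have h1 := Real.arctan_lt_pi_div_two b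
  have h2 := Real.neg_pi_div_two_lt_arctan a
  linarith

theorem wpos (x : ℝ) : 0 < (1 + x ^ 2)⁻¹ := by positivity

theorem wcont : Continuous fun x : ℝ => (1 + x ^ 2)⁻¹ := by
  refine Continuous.inv₀ (by fun_prop) fun x => ?_
  positivity

theorem wcmp {x y ℓ : ℝ} (hℓ : |ℓ| ≤ 2) (h : x = -ℓ - y) : (1 + x ^ 2)⁻¹ ≤ 9 * (1 + y ^ 2)⁻¹ := by
  have h1 : 1 + y ^ 2 ≤ 9 * (1 + x ^ 2) := by
    have h2 : ℓ ^ 2 ≤ 4 := by
      have := sq_le_sq' (by linarith [abs_le.1 hℓ |>.1]) (abs_le.1 hℓ).2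
      linarith
    have e : y = -ℓ - x := by linarith
    rw [e]
    nlinarith [sq_nonneg (ℓ - x)]
  rw [← div_eq_mul_inv, inv_eq_one_div, div_le_div_iff₀ (by positivity) (by positivity)]
  linarith

attribute [local irreducible] DD ZZ N2

theorem qqb (h1 : J_N2B) (h2 : J_FE) (h3 : J_CNT) (h4 : J_MVS) (h5 : J_DDC) (h6 : J_QQC) : J_QQB := by
  intro hRH a C0 hC0
  obtain ⟨δ0, CN, XN, hδ0, hCN, hN⟩ := h1 hRH a C0 hC0
  obtain ⟨C2, T0, hC2, hT0, hFE⟩ := h2
  obtain ⟨⟨C1, hC1, hCNT⟩, -⟩ := h3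
  obtain ⟨C4, hC4, hMV⟩ := h4
  have hDc : Continuous (fun p : ℝ × ℝ => DD 2 p.1 p.2) := (h5 2 (by norm_num) le_rfl).1
  refine ⟨δ0, hδ0, fun c hc hc1 => ?_⟩
  obtain ⟨w', hw'⟩ : ∃ w' : ℝ, w' = Real.log (2 * Real.pi) - Real.log c := ⟨_, rfl⟩
  obtain ⟨E, hE⟩ : ∃ E, E = Real.exp (|w'| + 2) := ⟨_, rfl⟩
  obtain ⟨G, hG⟩ : ∃ G, G = C4 * (3 + 2 * Real.exp (2 * w' + 4)) := ⟨_, rfl⟩
  have hEp : 0 < E := hE ▸ Real.exp_pos _
  have hGp : 0 < G := by rw [hG]; positivity
  have hpi := Real.pi_pos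
  refine ⟨(4 * C1 + 12 * Real.pi * C2 ^ 2 * C1) * CN + 3 * Real.pi * (7 / 2) + 27 * (Real.pi * G),
    max XN (max (2 * T0) (max (Real.exp (|w'| + 16)) ((C0 * (1 + E)) ^ 2))), by positivity, ?_⟩
  intro X δ hX hδ hδ1 hyp Z hZ
  have hXN : XN ≤ X := (le_max_left _ _).trans hX
  have hX' := (le_max_right _ _).trans hX
  have hXT : 2 * T0 ≤ X := (le_max_left _ _).trans hX'
  have hX2 := (le_max_right _ _).trans hX'
  have hXe : Real.exp (|w'| + 16) ≤ X := (le_max_left _ _).trans hX2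
  have hXE : (C0 * (1 + E)) ^ 2 ≤ X := (le_max_right _ _).trans hX2
  have hX1 : 1 ≤ X := by
    have : (1 : ℝ) ≤ Real.exp (|w'| + 16) := Real.one_le_exp (by positivity)
    linarith
  have hX0 : 0 < X := by linarith
  obtain ⟨L, hL⟩ : ∃ L, L = Real.log X := ⟨_, rfl⟩
  have hLw : |w'| + 16 ≤ L := by
    rw [hL, Real.le_log_iff_exp_le hX0]
    exact hXe
  have hw0 : 0 ≤ |w'| := abs_nonneg _
  have hL16 : 16 ≤ L := by linarith
  have hexpL : Real.exp L = X := by rw [hL, Real.exp_log hX0]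
  have hLX : L ≤ X := by
    rw [← hexpL]
    linarith [Real.add_one_le_exp L]
  obtain ⟨h, hh⟩ : ∃ h, h = L / 2 := ⟨_, rfl⟩
  have hh0 : 0 < h := by linarith
  have hlog16 : Real.log 16 ≤ 3 := by
    have : Real.log 16 = 4 * Real.log 2 := by
      rw [show (16 : ℝ) = 2 ^ 4 by norm_num, Real.log_pow]
      norm_num
    linarith [Real.log_two_lt_d9]
  have hL16' : Real.log (X / 16) = L - Real.log 16 := by
    rw [Real.log_div hX0.ne' (by norm_num), hL]
  have hcnt : ∀ T : ℝ, ∑ t ∈ Z, Real.exp (-(2 * (t - T) ^ 2)) * (1 + (t - T) ^ 2) ^ 2 ≤ C1 * L := by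
    intro T
    refine (hCNT (Real.log (X / 16)) Z (by linarith) (fun t ht t' ht' htt => ?_) T).trans ?_
    · refine hyp.spaced t (hZ.sub t ht).1 t' (hZ.sub t' ht').1 ?_ htt ?_
      · have := (hZ.sub t ht).2.1
        linarith
      · have := (hZ.sub t' ht').2.2
        linarith
    · have : 0 ≤ Real.log 16 := Real.log_nonneg (by norm_num)
      exact mul_le_mul_of_nonneg_left (by linarith) hC1.le
  have hS : ∀ T : ℝ, ∑ t ∈ Z, ‖aa t‖ * Real.exp (-(2 * (t - T) ^ 2)) * (1 + (t - T) ^ 2) ≤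
      Real.sqrt (N2 Z T * (C1 * L)) := by
    intro T
    refine (cs Z T).trans ?_
    rw [Real.sqrt_mul (n2_nonneg Z T)]
    exact mul_le_mul_of_nonneg_left (Real.sqrt_le_sqrt (hcnt T)) (Real.sqrt_nonneg _)
  obtain ⟨w, hw⟩ : ∃ w, w = Real.log c - Real.log X := ⟨_, rfl⟩
  obtain ⟨M, hM⟩ : ∃ M, M = h + 2 := ⟨_, rfl⟩
  obtain ⟨F, hF⟩ : ∃ F : ℝ → ℝ → ℝ, F = fun T y => (1 + y ^ 2)⁻¹ * ‖DD 2 (w' + y) T‖ ^ 2 := ⟨_, rfl⟩
  have hFc : Continuous (Function.uncurry F) := by
    have e : Function.uncurry F = fun p : ℝ × ℝ => (1 + p.2 ^ 2)⁻¹ * ‖DD 2 (w' + p.2) p.1‖ ^ 2 := by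
      rw [hF]
      rfl
    rw [e]
    refine (wcont.comp continuous_snd).mul ?_
    have h0 : Continuous fun p : ℝ × ℝ => (w' + p.2, p.1) := by fun_prop
    have h1 : Continuous fun p : ℝ × ℝ => DD 2 (w' + p.2) p.1 := Continuous.comp hDc h0
    exact h1.norm.pow 2
  -- the pointwise estimate
  have hpt : ∀ T ∈ Icc (X / 2) (4 * X), QQ Z w T ≤
      (4 * C1 + 12 * Real.pi * C2 ^ 2 * C1) * N2 Z T + 3 * Real.pi + 27 * ∫ y in (-M)..M, F T y := by
    intro T hT
    have hT0 : 0 < T := by linarith [hT.1]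
    have hTT0 : T0 ≤ T := by linarith [hT.1]
    obtain ⟨ℓ, hℓ⟩ : ∃ ℓ, ℓ = Real.log T - Real.log X := ⟨_, rfl⟩
    have hℓ2 : |ℓ| ≤ 2 := by
      rw [hℓ, ← Real.log_div hT0.ne' hX0.ne', abs_le]
      have h2l := Real.log_two_lt_d9
      constructor
      · have : Real.log (1 / 2) ≤ Real.log (T / X) :=
          Real.log_le_log (by norm_num) (by rw [div_le_div_iff₀ (by norm_num) hX0]; linarith [hT.1])
        rw [Real.log_div one_ne_zero two_ne_zero, Real.log_one] at this
        linarith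
      · have : Real.log (T / X) ≤ Real.log (2 ^ 2) :=
          Real.log_le_log (by positivity) (by rw [div_le_iff₀ hX0]; linarith [hT.2])
        rw [Real.log_pow] at this
        push_cast at this
        linarith
    obtain ⟨N, hNe⟩ : ∃ N, N = N2 Z T := ⟨_, rfl⟩
    have hN0 : 0 ≤ N := hNe ▸ n2_nonneg Z T
    have hCL : 0 ≤ N * (C1 * L) := by positivity
    obtain ⟨-, hfi, -⟩ := h6 Z w
    have hfiT := hfi T
    -- the two parts
    have hsplit := integral_add_compl (measurableSet_Icc (a := -h) (b := h)) hfiT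
    have hout : ∫ x in (Icc (-h) h)ᶜ, (1 + x ^ 2)⁻¹ * ‖ZZ Z 2 (w + x) T‖ ^ 2 ≤ 4 * C1 * N := by
      calc ∫ x in (Icc (-h) h)ᶜ, (1 + x ^ 2)⁻¹ * ‖ZZ Z 2 (w + x) T‖ ^ 2
          ≤ ∫ x in (Icc (-h) h)ᶜ, (1 + x ^ 2)⁻¹ * (N * (C1 * L)) := by
            refine setIntegral_mono hfiT.integrableOn
              (integrable_inv_one_add_sq.mul_const _).integrableOn fun x => ?_
            refine mul_le_mul_of_nonneg_left ?_ (wpos x).le
            have h7 := (zz_le Z (w + x) T).trans (hS T)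
            rw [← hNe] at h7
            calc ‖ZZ Z 2 (w + x) T‖ ^ 2 ≤ (Real.sqrt (N * (C1 * L))) ^ 2 :=
                  pow_le_pow_left₀ (norm_nonneg _) h7 2
              _ = N * (C1 * L) := Real.sq_sqrt hCL
        _ = (∫ x in (Icc (-h) h)ᶜ, (1 + x ^ 2)⁻¹) * (N * (C1 * L)) := integral_mul_const _ _
        _ ≤ 2 / h * (N * (C1 * L)) := mul_le_mul_of_nonneg_right (tail hh0) hCL
        _ = 4 * C1 * N := by
            rw [hh]
            field_simp
            ring
    have hin : ∫ x in Icc (-h) h, (1 + x ^ 2)⁻¹ * ‖ZZ Z 2 (w + x) T‖ ^ 2 ≤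
        12 * Real.pi * C2 ^ 2 * C1 * N + 3 * Real.pi + 27 * ∫ y in (-M)..M, F T y := by
      have hFT : Continuous (F T) := hFc.comp (Continuous.prodMk continuous_const continuous_id)
      have hF0 : ∀ y, 0 ≤ F T y := fun y => by
        rw [hF]
        positivity
      obtain ⟨K, hK⟩ : ∃ K : ℝ → ℝ, K = fun y => (1 + (-ℓ - y) ^ 2)⁻¹ * ‖DD 2 (w' + y) T‖ ^ 2 := ⟨_, rfl⟩
      have hKc : Continuous K := by
        rw [hK]
        refine (wcont.comp (by fun_prop)).mul ?_
        have h0 : Continuous fun y : ℝ => (w' + y, T) := by fun_prop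
        have h1 : Continuous fun y : ℝ => DD 2 (w' + y) T := Continuous.comp hDc h0
        exact h1.norm.pow 2
      rw [integral_Icc_eq_integral_Ioc, ← intervalIntegral.integral_of_le (by linarith)]
      have hb : ∀ x ∈ Icc (-h) h, (1 + x ^ 2)⁻¹ * ‖ZZ Z 2 (w + x) T‖ ^ 2 ≤
          (1 + x ^ 2)⁻¹ * (3 + 12 * C2 ^ 2 * C1 * N) + 3 * K (-ℓ - x) := by
        intro x hx
        obtain ⟨v', hv'⟩ : ∃ v', v' = w' + (-ℓ - x) := ⟨_, rfl⟩
        have hfe := hFE T hTT0 Z (fun t ht => (hZ.sub t ht).1) 2 (w + x)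
        have ev : -(w + x) - Real.log (T / (2 * Real.pi)) = v' := by
          rw [Real.log_div hT0.ne' (by positivity), hv', hℓ, hw', hw]
          ring
        rw [ev] at hfe
        have hvabs : |v'| ≤ 3 * Real.log X := by
          rw [← hL, hv']
          have h8 := abs_le.1 hℓ2
          have h9 := abs_le.1 (le_refl |w'|)
          rw [abs_le]
          constructor
          · linarith [hx.2, h8.2, h9.1]
          · linarith [hx.1, h8.1, h9.2]
        have hef := hZ.ef 2 v' T (by norm_num) le_rfl (by linarith [hT.1]) (by linarith [hT.2]) hvabs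
        have hexpv : Real.exp (-v') ≤ E * Real.sqrt X := by
          have e1 : Real.sqrt X = Real.exp h := by
            rw [hh, ← hexpL]
            rw [show Real.exp L = Real.exp (L / 2) ^ 2 by rw [← Real.exp_nat_mul]; congr 1; push_cast; ring]
            exact Real.sqrt_sq (Real.exp_pos _).le
          rw [e1, hE, ← Real.exp_add]
          refine Real.exp_le_exp.2 ?_
          have h8 := abs_le.1 hℓ2
          have h9 := abs_le.1 (le_refl |w'|)
          rw [hv']
          linarith [hx.2, h8.2, h9.1]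
        have hsX1 : 1 ≤ Real.sqrt X := Real.one_le_sqrt.2 hX1
        have hsX : Real.sqrt X * Real.sqrt X = X := Real.mul_self_sqrt hX0.le
        have herr1 : C0 * (1 + Real.exp (-v')) / X ≤ 1 := by
          rw [div_le_one hX0]
          have h8 : C0 * (1 + E) ≤ Real.sqrt X := Real.le_sqrt_of_sq_le hXE
          calc C0 * (1 + Real.exp (-v')) ≤ C0 * (Real.sqrt X + E * Real.sqrt X) :=
                mul_le_mul_of_nonneg_left (by linarith) hC0.le
            _ = C0 * (1 + E) * Real.sqrt X := by ring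
            _ ≤ Real.sqrt X * Real.sqrt X := mul_le_mul_of_nonneg_right h8 (Real.sqrt_nonneg _)
            _ = X := hsX
        obtain ⟨r, hr⟩ : ∃ r, r = C2 / T * Real.sqrt (N * (C1 * L)) := ⟨_, rfl⟩
        have hr0 : 0 ≤ r := by rw [hr]; positivity
        have hfe' : ‖ZZ Z 2 (w + x) T‖ ≤ ‖ZZ Z 2 v' T‖ + r := by
          have h8 := (abs_le.1 hfe).2
          have h9 := hS T
          rw [← hNe] at h9
          have h10 : C2 / T * ∑ t ∈ Z, ‖aa t‖ * Real.exp (-(2 * (t - T) ^ 2)) * (1 + (t - T) ^ 2) ≤ r := by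
            rw [hr]
            exact mul_le_mul_of_nonneg_left h9 (by positivity)
          linarith
        have hzz : ‖ZZ Z 2 v' T‖ ≤ ‖DD 2 v' T‖ + 1 := by
          have h8 : ‖ZZ Z 2 v' T‖ ≤ ‖DD 2 v' T‖ + ‖DD 2 v' T - ZZ Z 2 v' T‖ := by
            have := norm_sub_le (DD 2 v' T) (DD 2 v' T - ZZ Z 2 v' T)
            rwa [sub_sub_cancel] at this
          linarith
        have hr2 : r ^ 2 ≤ 4 * C2 ^ 2 * C1 * N := by
          rw [hr, mul_pow, Real.sq_sqrt hCL]
          have h8 : (C2 / T) ^ 2 ≤ 4 * C2 ^ 2 / X ^ 2 := by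
            rw [div_pow, div_le_div_iff₀ (by positivity) (by positivity)]
            have h9 : X ≤ 2 * T := by linarith [hT.1]
            have h10 : X ^ 2 ≤ 4 * T ^ 2 := by nlinarith
            nlinarith [sq_nonneg C2]
          calc (C2 / T) ^ 2 * (N * (C1 * L)) ≤ 4 * C2 ^ 2 / X ^ 2 * (N * (C1 * L)) :=
                mul_le_mul_of_nonneg_right h8 hCL
            _ = 4 * C2 ^ 2 * C1 * N * (L / X ^ 2) := by ring
            _ ≤ 4 * C2 ^ 2 * C1 * N * 1 := by
                refine mul_le_mul_of_nonneg_left ?_ (by positivity)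
                rw [div_le_one (by positivity)]
                nlinarith
            _ = 4 * C2 ^ 2 * C1 * N := mul_one _
        have hsq : ‖ZZ Z 2 (w + x) T‖ ^ 2 ≤ 3 * ‖DD 2 v' T‖ ^ 2 + 3 + 3 * r ^ 2 := by
          have h8 : ‖ZZ Z 2 (w + x) T‖ ≤ ‖DD 2 v' T‖ + 1 + r := by linarith
          have h9 := pow_le_pow_left₀ (norm_nonneg _) h8 2
          nlinarith [sq_nonneg (‖DD 2 v' T‖ - 1), sq_nonneg (‖DD 2 v' T‖ - r), sq_nonneg (1 - r)]
        have hKx : K (-ℓ - x) = (1 + x ^ 2)⁻¹ * ‖DD 2 v' T‖ ^ 2 := by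
          rw [hK, hv']
          simp only
          rw [show -ℓ - (-ℓ - x) = x by ring]
        rw [hKx]
        have h11 := mul_le_mul_of_nonneg_left (hsq.trans (by linarith :
          3 * ‖DD 2 v' T‖ ^ 2 + 3 + 3 * r ^ 2 ≤ 3 * ‖DD 2 v' T‖ ^ 2 + (3 + 12 * C2 ^ 2 * C1 * N))) (wpos x).le
        linarith
      have hZc : Continuous fun x : ℝ => (1 + x ^ 2)⁻¹ * ‖ZZ Z 2 (w + x) T‖ ^ 2 := by
        refine wcont.mul ?_
        unfold ZZ
        fun_prop
      have i1 : IntervalIntegrable (fun x : ℝ => (1 + x ^ 2)⁻¹ * (3 + 12 * C2 ^ 2 * C1 * N)) volume (-h) h :=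
        (wcont.mul continuous_const).intervalIntegrable _ _
      have i2 : IntervalIntegrable (fun x : ℝ => 3 * K (-ℓ - x)) volume (-h) h := by
        have c2 : Continuous fun x : ℝ => K (-ℓ - x) := hKc.comp (continuous_const.sub continuous_id)
        exact (continuous_const.mul c2).intervalIntegrable _ _
      calc ∫ x in (-h)..h, (1 + x ^ 2)⁻¹ * ‖ZZ Z 2 (w + x) T‖ ^ 2
          ≤ ∫ x in (-h)..h, ((1 + x ^ 2)⁻¹ * (3 + 12 * C2 ^ 2 * C1 * N) + 3 * K (-ℓ - x)) := by
            refine intervalIntegral.integral_mono_on (by linarith) (hZc.intervalIntegrable _ _) (i1.add i2) hb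
        _ = (∫ x in (-h)..h, (1 + x ^ 2)⁻¹) * (3 + 12 * C2 ^ 2 * C1 * N) + 3 * ∫ x in (-h)..h, K (-ℓ - x) := by
            rw [intervalIntegral.integral_add i1 i2,
              intervalIntegral.integral_mul_const, intervalIntegral.integral_const_mul]
        _ ≤ Real.pi * (3 + 12 * C2 ^ 2 * C1 * N) + 3 * (9 * ∫ y in (-M)..M, F T y) := by
            refine add_le_add (mul_le_mul_of_nonneg_right (weight_le _ _) (by positivity))
              (mul_le_mul_of_nonneg_left ?_ (by norm_num))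
            rw [intervalIntegral.integral_comp_sub_left]
            have h8 := abs_le.1 hℓ2
            calc ∫ y in (-ℓ - h)..(-ℓ - -h), K y ≤ ∫ y in (-ℓ - h)..(-ℓ - -h), 9 * F T y := by
                  refine intervalIntegral.integral_mono_on (by linarith) (hKc.intervalIntegrable _ _)
                    ((continuous_const.mul hFT).intervalIntegrable _ _) fun y _ => ?_
                  rw [hK, hF]
                  simp only
                  have h9 := mul_le_mul_of_nonneg_right (wcmp (x := -ℓ - y) (y := y) hℓ2 rfl)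
                    (sq_nonneg ‖DD 2 (w' + y) T‖)
                  linarith
              _ = 9 * ∫ y in (-ℓ - h)..(-ℓ - -h), F T y := intervalIntegral.integral_const_mul _ _
              _ ≤ 9 * ∫ y in (-M)..M, F T y := by
                  refine mul_le_mul_of_nonneg_left ?_ (by norm_num)
                  refine intervalIntegral.integral_mono_interval (by linarith [h8.2]) (by linarith) (by linarith [h8.1])
                    (ae_of_all _ hF0) (hFT.intervalIntegrable _ _)
        _ = 12 * Real.pi * C2 ^ 2 * C1 * N + 3 * Real.pi + 27 * ∫ y in (-M)..M, F T y := by ring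
    have hQQ : QQ Z w T = ∫ x : ℝ, (1 + x ^ 2)⁻¹ * ‖ZZ Z 2 (w + x) T‖ ^ 2 := rfl
    rw [hQQ, ← hsplit, ← hNe]
    linarith
  -- the mean
  have hle : X / 2 ≤ 4 * X := by linarith
  have hMM : -M ≤ M := by linarith
  have hNi := n2_cont Z
  have hIc : Continuous fun T => ∫ y in (-M)..M, F T y :=
    intervalIntegral.continuous_parametric_intervalIntegral_of_continuous' hFc _ _
  have hmean : ∫ T in (X / 2)..(4 * X), ∫ y in (-M)..M, F T y ≤ Real.pi * G * X := by
    rw [intervalIntegral_intervalIntegral_swap]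
    swap
    · refine (hFc.continuousOn.integrableOn_compact
        ((isCompact_uIcc (a := X / 2) (b := 4 * X)).prod
          (isCompact_uIcc (a := -M) (b := M)))).mono_set ?_
      exact Set.prod_mono uIoc_subset_uIcc uIoc_subset_uIcc
    have hGX : 0 ≤ G * X := by positivity
    calc ∫ y in (-M)..M, ∫ T in (X / 2)..(4 * X), F T y ≤ ∫ y in (-M)..M, (1 + y ^ 2)⁻¹ * (G * X) := by
          have hsw : Continuous (Function.uncurry fun y T => F T y) := by
            have := hFc.comp continuous_swap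
            exact this
          refine intervalIntegral.integral_mono_on hMM
            ((intervalIntegral.continuous_parametric_intervalIntegral_of_continuous' hsw _ _).intervalIntegrable _ _)
            ((wcont.mul continuous_const).intervalIntegrable _ _) fun y hy => ?_
          rw [hF]
          simp only
          rw [intervalIntegral.integral_const_mul]
          refine mul_le_mul_of_nonneg_left ?_ (wpos y).le
          refine (hMV 2 (w' + y) X (by norm_num) le_rfl hX1).trans ?_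
          rw [hG, mul_assoc]
          refine mul_le_mul_of_nonneg_left ?_ hC4.le
          have e2 : Real.exp (2 * (w' + y)) ≤ Real.exp (2 * w' + 4) * X := by
            rw [← hexpL, ← Real.exp_add]
            refine Real.exp_le_exp.2 ?_
            have := hy.2
            rw [hM, hh] at this
            linarith
          have e1 : Real.exp (w' + y) ≤ 1 + Real.exp (2 * (w' + y)) := by
            rw [two_mul, Real.exp_add (w' + y) (w' + y)]
            nlinarith [sq_nonneg (Real.exp (w' + y) - 1), Real.exp_pos (w' + y)]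
          have e3 : (Real.exp (w' + y) + Real.exp (2 * (w' + y))) / X ≤ 1 + 2 * Real.exp (2 * w' + 4) := by
            rw [div_le_iff₀ hX0]
            nlinarith
          have e4 : 1 + 2 * Real.exp (2 * w' + 4) ≤ (2 + 2 * Real.exp (2 * w' + 4)) * X := by
            nlinarith [Real.exp_pos (2 * w' + 4)]
          linarith
      _ = (∫ y in (-M)..M, (1 + y ^ 2)⁻¹) * (G * X) := intervalIntegral.integral_mul_const _ _
      _ ≤ Real.pi * (G * X) := mul_le_mul_of_nonneg_right (weight_le _ _) hGX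
      _ = Real.pi * G * X := by ring
  have hQc := (h6 Z w).1
  have hNX := hN X δ hXN hδ hδ1 hyp Z hZ
  rw [← hw]
  have j1 : IntervalIntegrable (fun T : ℝ => (4 * C1 + 12 * Real.pi * C2 ^ 2 * C1) * N2 Z T) volume (X / 2) (4 * X) :=
    (continuous_const.mul hNi).intervalIntegrable _ _
  have j2 : IntervalIntegrable (fun _ : ℝ => 3 * Real.pi) volume (X / 2) (4 * X) :=
    continuous_const.intervalIntegrable _ _
  have j3 : IntervalIntegrable (fun T : ℝ => 27 * ∫ y in (-M)..M, F T y) volume (X / 2) (4 * X) :=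
    (continuous_const.mul hIc).intervalIntegrable _ _
  calc ∫ T in (X / 2)..(4 * X), QQ Z w T
      ≤ ∫ T in (X / 2)..(4 * X), (((4 * C1 + 12 * Real.pi * C2 ^ 2 * C1) * N2 Z T + 3 * Real.pi) +
          27 * ∫ y in (-M)..M, F T y) := by
        exact intervalIntegral.integral_mono_on hle (hQc.intervalIntegrable _ _) ((j1.add j2).add j3) hpt
    _ = (4 * C1 + 12 * Real.pi * C2 ^ 2 * C1) * (∫ T in (X / 2)..(4 * X), N2 Z T) + 3 * Real.pi * (7 / 2 * X) +
          27 * ∫ T in (X / 2)..(4 * X), ∫ y in (-M)..M, F T y := by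
        rw [intervalIntegral.integral_add (j1.add j2) j3, intervalIntegral.integral_add j1 j2,
          intervalIntegral.integral_const, smul_eq_mul, intervalIntegral.integral_const_mul,
          intervalIntegral.integral_const_mul]
        ring
    _ ≤ (4 * C1 + 12 * Real.pi * C2 ^ 2 * C1) * (CN * X) + 3 * Real.pi * (7 / 2 * X) +
          27 * (Real.pi * G * X) := by
        refine add_le_add (add_le_add (mul_le_mul_of_nonneg_left hNX (by positivity)) le_rfl)
          (mul_le_mul_of_nonneg_left hmean (by norm_num))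
    _ = _ := by ring

end Pool.Agent.Q158.AL
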